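import Pool.Agent.H8.VR.Inst

/-!
# Ordered forests are generated by a grammar (module FR)
-/

set_option autoImplicit false

namespace Pool.Agent.H1.VR

open Pool.Agent.H8.VR

/-- the axioms of ordered forests on a set -/
structure OFOn {A : Type} (R : ℕ → A → A → Prop) (X : Set A) : Prop where
  irr : ∀ a ∈ X, ¬ R 1 a a
  tri : ∀ a ∈ X, ∀ b ∈ X, ¬ R 1 a b → ¬ R 1 b a → a = b
  tr : ∀ a ∈ X, ∀ b ∈ X, ∀ c ∈ X, R 1 a b → R 1 b c → R 1 a c
  sub : ∀ a ∈ X, ∀ b ∈ X, R 0 a b → R 1 a b
  tr0 : ∀ a ∈ X, ∀ b ∈ X, ∀ c ∈ X, R 0 a b → R 0 b c → R 0 a c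
  bet : ∀ a ∈ X, ∀ b ∈ X, ∀ c ∈ X, R 0 a c → R 1 a b → R 1 b c → R 0 a b

theorem ofOn_univ {A : Type} {R : ℕ → A → A → Prop} : OrdForest R ↔ OFOn R Set.univ := by
  constructor
  · rintro ⟨h1, h2, h3, h4⟩
    exact ⟨fun a _ => h1.irrefl a, fun a _ b _ => h1.trichotomous a b,
      fun a _ b _ c _ => h1.trans a b c, fun a _ b _ => h2 a b, fun a _ b _ c _ => h3 a b c,
      fun a _ b _ c _ => h4 a b c⟩
  · intro h
    refine ⟨?_, fun a b => h.sub a trivial b trivial, fun a b c => h.tr0 a trivial b trivial c trivial,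
      fun a b c => h.bet a trivial b trivial c trivial⟩
    exact { trichotomous := fun a b => h.tri a trivial b trivial
            irrefl := fun a => h.irr a trivial
            trans := fun a b c => h.tr a trivial b trivial c trivial }

theorem OFOn.mono {A : Type} {R : ℕ → A → A → Prop} {X Y : Set A} (h : OFOn R X) (hY : Y ⊆ X) :
    OFOn R Y :=
  ⟨fun a ha => h.irr a (hY ha), fun a ha b hb => h.tri a (hY ha) b (hY hb),
    fun a ha b hb c hc => h.tr a (hY ha) b (hY hb) c (hY hc),
    fun a ha b hb => h.sub a (hY ha) b (hY hb),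
    fun a ha b hb c hc => h.tr0 a (hY ha) b (hY hb) c (hY hc),
    fun a ha b hb c hc => h.bet a (hY ha) b (hY hb) c (hY hc)⟩

/-- putting two forests side by side, the first below nothing or a single root -/
theorem OFOn.union {A : Type} {R : ℕ → A → A → Prop} {X Y : Set A} (hX : OFOn R X)
    (hY : OFOn R Y) (h1 : ∀ a ∈ X, ∀ b ∈ Y, R 1 a b) (h2 : ∀ a ∈ X, ∀ b ∈ Y, ¬ R 1 b a)
    (h3 : ∀ a ∈ X, ∀ b ∈ Y, ¬ R 0 b a)
    (h4 : (∀ a ∈ X, ∀ b ∈ Y, ¬ R 0 a b) ∨ ((∀ a ∈ X, ∀ b ∈ Y, R 0 a b) ∧ X.Subsingleton)) :
    OFOn R (X ∪ Y) := by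
  have hss : ∀ a ∈ X, ∀ b ∈ X, X.Subsingleton → ¬ R 0 a b := by
    intro a ha b hb hs h
    have := hs ha hb
    subst this
    exact hX.irr a ha (hX.sub a ha a ha h)
  have hss1 : ∀ a ∈ X, ∀ b ∈ X, X.Subsingleton → ¬ R 1 a b := by
    intro a ha b hb hs h
    have := hs ha hb
    subst this
    exact hX.irr a ha h
  refine ⟨?_, ?_, ?_, ?_, ?_, ?_⟩
  · rintro a (ha | ha)
    · exact hX.irr a ha
    · exact hY.irr a ha
  · rintro a (ha | ha) b (hb | hb) h h'
    · exact hX.tri a ha b hb h h'
    · exact absurd (h1 a ha b hb) h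
    · exact absurd (h1 b hb a ha) h'
    · exact hY.tri a ha b hb h h'
  · rintro a (ha | ha) b (hb | hb) c (hc | hc) h h'
    · exact hX.tr a ha b hb c hc h h'
    · exact h1 a ha c hc
    · exact absurd h' (h2 c hc b hb)
    · exact h1 a ha c hc
    · exact absurd h (h2 b hb a ha)
    · exact absurd h (h2 b hb a ha)
    · exact absurd h' (h2 c hc b hb)
    · exact hY.tr a ha b hb c hc h h'
  · rintro a (ha | ha) b (hb | hb) h
    · exact hX.sub a ha b hb h
    · exact h1 a ha b hb
    · exact absurd h (h3 b hb a ha)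
    · exact hY.sub a ha b hb h
  · rintro a (ha | ha) b (hb | hb) c (hc | hc) h h'
    · exact hX.tr0 a ha b hb c hc h h'
    · rcases h4 with h4 | ⟨h4, -⟩
      · exact absurd h' (h4 b hb c hc)
      · exact h4 a ha c hc
    · exact absurd h' (h3 c hc b hb)
    · rcases h4 with h4 | ⟨h4, -⟩
      · exact absurd h (h4 a ha b hb)
      · exact h4 a ha c hc
    · exact absurd h (h3 b hb a ha)
    · exact absurd h (h3 b hb a ha)
    · exact absurd h' (h3 c hc b hb)
    · exact hY.tr0 a ha b hb c hc h h'
  · rintro a (ha | ha) b (hb | hb) c (hc | hc) h h' h''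
    · exact hX.bet a ha b hb c hc h h' h''
    · rcases h4 with h4 | ⟨h4, hs⟩
      · exact absurd h (h4 a ha c hc)
      · exact absurd h' (hss1 a ha b hb hs)
    · exact absurd h'' (h2 c hc b hb)
    · rcases h4 with h4 | ⟨h4, -⟩
      · exact absurd h (h4 a ha c hc)
      · exact h4 a ha b hb
    · exact absurd h' (h2 b hb a ha)
    · exact absurd h' (h2 b hb a ha)
    · exact absurd h'' (h2 c hc b hb)
    · exact hY.bet a ha b hb c hc h h' h''

theorem gen_of {A : Type} [Finite A] (P : ℕ → A → Prop) (R : ℕ → A → A → Prop) :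
    ∀ n, ∀ X : Set A, X.ncard = n → X.Nonempty → OFOn R X →
      forG.Gen 2 P R true X (fun _ => ()) ∧
        ∀ a, X = {a} → forG.Gen 2 P R false X (fun _ => ()) := by
  classical
  intro n
  induction n using Nat.strong_induction_on with
  | _ n ih =>
    intro X hn hne hX
    have hpt : ∀ a, X = {a} → ∀ s, forG.Gen 2 P R s X (fun _ => ()) := by
      rintro a rfl s
      refine Gram.Gen.pt (G := forG) (m := 2) (P := P) (R := R)
        { s := s, q := (), un := fun i => if i = 0 then decide (P 0 a) = true else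
            decide (P 1 a) = true, lp := fun _ => False } ?_ a (fun _ => ()) rfl ?_ ?_
      · simp only [forG, List.mem_flatMap, List.mem_map]
        refine ⟨s, by cases s <;> simp, decide (P 0 a), by cases decide (P 0 a) <;> simp,
          decide (P 1 a), by cases decide (P 1 a) <;> simp, rfl⟩
      · intro i hi
        interval_cases i <;> simp
      · intro i hi
        have h1 : ¬ R 1 a a := hX.irr a rfl
        have h0 : ¬ R 0 a a := fun h => h1 (hX.sub a rfl a rfl h)
        interval_cases i <;> simp [h0, h1]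
    refine ⟨?_, fun a ha => hpt a ha false⟩
    -- the least element
    obtain ⟨r, hrX, hr⟩ : ∃ r ∈ X, ∀ b ∈ X, b ≠ r → R 1 r b := by
      have hwf : ∀ k, ∀ Y : Set A, Y ⊆ X → Y.ncard = k → Y.Nonempty →
          ∃ r ∈ Y, ∀ b ∈ Y, b ≠ r → R 1 r b := by
        intro k
        induction k with
        | zero =>
          intro Y _ hk hY
          rw [Set.ncard_eq_zero (Set.toFinite _)] at hk
          exact absurd hk hY.ne_empty
        | succ k ihk =>
          intro Y hYX hk hY
          obtain ⟨y, hy⟩ := hY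
          by_cases he : (Y \ {y}).Nonempty
          · obtain ⟨r, hr1, hr2⟩ := ihk (Y \ {y}) (fun z hz => hYX hz.1)
              (by rw [Set.ncard_sdiff_singleton_of_mem hy, hk]; rfl) he
            by_cases hyr : R 1 y r
            · refine ⟨y, hy, fun b hb hby => ?_⟩
              by_cases hbr : b = r
              · rw [hbr]; exact hyr
              · exact hX.tr y (hYX hy) r (hYX hr1.1) b (hYX hb) hyr (hr2 b ⟨hb, hby⟩ hbr)
            · refine ⟨r, hr1.1, fun b hb hbr => ?_⟩
              by_cases hby : b = y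
              · subst hby
                by_contra hrb
                exact hbr (hX.tri b (hYX hb) r (hYX hr1.1) hyr hrb)
              · exact hr2 b ⟨hb, hby⟩ hbr
          · refine ⟨y, hy, fun b hb hby => ?_⟩
            exact absurd ⟨b, hb, hby⟩ he
      exact hwf X.ncard X subset_rfl rfl hne
    have has : ∀ a ∈ X, ∀ b ∈ X, R 1 a b → ¬ R 1 b a := fun a ha b hb h h' =>
      hX.irr a ha (hX.tr a ha b hb a ha h h')
    let D : Set A := {b | b ∈ X ∧ R 0 r b}
    let E : Set A := {b | b ∈ X ∧ b ≠ r ∧ ¬ R 0 r b}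
    have hDX : D ⊆ X := fun b hb => hb.1
    have hEX : E ⊆ X := fun b hb => hb.1
    have hrD : r ∉ D := fun h => hX.irr r hrX (hX.sub r hrX r hrX h.2)
    have hpos : ∀ Y Z : Set A, Y.Nonempty → Nat.pair Y.ncard Z.ncard ∈ {n : ℕ | 0 < n} := by
      intro Y Z hY
      have h1 : 0 < Y.ncard := (Set.ncard_pos (Set.toFinite _)).2 hY
      have h2 := Nat.add_le_pair Y.ncard Z.ncard
      change 0 < Nat.pair Y.ncard Z.ncard
      omega
    by_cases hE : E.Nonempty
    · -- two or more trees
      have hU : X = ({r} ∪ D) ∪ E := by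
        ext b
        constructor
        · intro hb
          by_cases h1 : b = r
          · exact Or.inl (Or.inl h1)
          · by_cases h2 : R 0 r b
            · exact Or.inl (Or.inr ⟨hb, h2⟩)
            · exact Or.inr ⟨hb, h1, h2⟩
        · rintro ((h | h) | h)
          · rw [Set.mem_singleton_iff] at h
            rw [h]; exact hrX
          · exact h.1
          · exact h.1
      have hFX : ({r} ∪ D) ⊆ X := by rw [hU]; exact Set.subset_union_left
      have hdis : Disjoint ({r} ∪ D) E := by
        rw [Set.disjoint_left]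
        rintro b (h | h) h'
        · exact h'.2.1 h
        · exact h'.2.2 h.2
      have hc := Set.ncard_union_eq hdis (Set.toFinite _) (Set.toFinite _)
      rw [← hU, hn] at hc
      have hE1 : 0 < E.ncard := (Set.ncard_pos (Set.toFinite _)).2 hE
      have hF1 : 0 < ({r} ∪ D).ncard :=
        (Set.ncard_pos (Set.toFinite _)).2 ⟨r, Or.inl rfl⟩
      have g1 := (ih _ (by omega) ({r} ∪ D) rfl ⟨r, Or.inl rfl⟩ (hX.mono hFX)).1
      have g2 := (ih _ (by omega) E rfl hE (hX.mono hEX)).1
      have hR1 : ∀ a ∈ ({r} ∪ D), ∀ b ∈ E, R 1 a b ∧ ¬ R 0 a b := by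
        rintro a (ha | ha) b hb
        · rw [Set.mem_singleton_iff] at ha
          subst ha
          exact ⟨hr b hb.1 hb.2.1, hb.2.2⟩
        · constructor
          · by_contra h
            have hba : R 1 b a := by
              by_contra h'
              have := hX.tri a ha.1 b hb.1 h h'
              subst this
              exact hb.2.2 ha.2
            exact hb.2.2 (hX.bet r hrX b hb.1 a ha.1 ha.2 (hr b hb.1 hb.2.1) hba)
          · intro h
            exact hb.2.2 (hX.tr0 r hrX a ha.1 b hb.1 ha.2 h)
      rw [hU]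
      refine Gram.Gen.op (G := forG) (m := 2) (P := P) (R := R)
        { s := true, t := true, u := true, l := fun i _ _ => i = 1, r := fun _ _ _ => False,
          f := id, g := id, D := {n | 0 < n} } (by simp [forG]) _ _ _ _ _ g1 g2 hdis
          (hpos _ _ ⟨r, Or.inl rfl⟩) ?_ (fun a _ => rfl) (fun a _ => rfl)
      intro a ha b hb i hi
      obtain ⟨h1, h0⟩ := hR1 a ha b hb
      have h2 := has a (hFX ha) b hb.1 h1
      have h3 : ¬ R 0 b a := fun h => h2 (hX.sub b hb.1 a (hFX ha) h)
      interval_cases i <;> simp [h0, h1, h2, h3]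
    · by_cases hD : D.Nonempty
      · have hU : X = {r} ∪ D := by
          ext b
          constructor
          · intro hb
            by_cases h1 : b = r
            · exact Or.inl h1
            · by_cases h2 : R 0 r b
              · exact Or.inr ⟨hb, h2⟩
              · exact absurd ⟨b, hb, h1, h2⟩ hE
          · rintro (h | h)
            · rw [Set.mem_singleton_iff] at h
              rw [h]; exact hrX
            · exact h.1
        have hdis : Disjoint {r} D := by
          rw [Set.disjoint_singleton_left]; exact hrD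
        have hc := Set.ncard_union_eq hdis (Set.toFinite _) (Set.toFinite _)
        rw [← hU, hn, Set.ncard_singleton] at hc
        have hD1 : 0 < D.ncard := (Set.ncard_pos (Set.toFinite _)).2 hD
        have g1 := (ih 1 (by omega) {r} (Set.ncard_singleton r) ⟨r, rfl⟩
          (hX.mono (by rintro b rfl; exact hrX))).2 r rfl
        have g2 := (ih _ (by omega) D rfl hD (hX.mono hDX)).1
        rw [hU]
        refine Gram.Gen.op (G := forG) (m := 2) (P := P) (R := R)
          { s := false, t := true, u := true, l := fun _ _ _ => True, r := fun _ _ _ => False,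
            f := id, g := id, D := {n | 0 < n} } (by simp [forG]) _ _ _ _ _ g1 g2 hdis
            (hpos _ _ ⟨r, rfl⟩) ?_ (fun a _ => rfl) (fun a _ => rfl)
        rintro a ha b hb i hi
        rw [Set.mem_singleton_iff] at ha
        subst ha
        have h0 : R 0 a b := hb.2
        have h1 : R 1 a b := hX.sub a hrX b hb.1 h0
        have h2 := has a hrX b hb.1 h1
        have h3 : ¬ R 0 b a := fun h => h2 (hX.sub b hb.1 a hrX h)
        interval_cases i <;> simp [h0, h1, h2, h3]
      · refine hpt r ?_ true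
        ext b
        constructor
        · intro hb
          by_contra h1
          by_cases h2 : R 0 r b
          · exact hD ⟨b, hb, h2⟩
          · exact hE ⟨b, hb, h1, h2⟩
        · intro h
          rw [Set.mem_singleton_iff] at h
          rw [h]; exact hrX

theorem of_gen {A : Type} (P : ℕ → A → Prop) (R : ℕ → A → A → Prop) (s : Bool) (X : Set A)
    (c : A → Unit) (h : forG.Gen 2 P R s X c) :
    OFOn R X ∧ (s = false → X.Subsingleton) := by
  induction h with
  | pt x hx a c hc hP hR =>
    have hlp : ∀ i < 2, ¬ R i a a := by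
      intro i hi
      rw [hR i hi]
      simp only [forG, List.mem_flatMap, List.mem_map] at hx
      obtain ⟨s, -, u, -, v, -, rfl⟩ := hx
      exact id
    have h0 := hlp 0 (by norm_num)
    have h1 := hlp 1 (by norm_num)
    refine ⟨⟨?_, ?_, ?_, ?_, ?_, ?_⟩, fun _ => Set.subsingleton_singleton⟩
    · rintro b rfl; exact h1
    · rintro b rfl c rfl _ _; rfl
    · rintro b rfl c rfl d rfl h _; exact h
    · rintro b rfl c rfl h; exact absurd h h0
    · rintro b rfl c rfl d rfl h _; exact h
    · rintro b rfl c rfl d rfl h _ _; exact h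
  | op o ho X Y c c₁ c₂ h₁ h₂ hd hD hR hX hY ih1 ih2 =>
    simp only [forG, List.mem_cons, List.not_mem_nil, or_false] at ho
    rcases ho with rfl | rfl
    · have hS : X.Subsingleton := ih1.2 rfl
      refine ⟨OFOn.union ih1.1 ih2.1 ?_ ?_ ?_ (Or.inr ⟨?_, hS⟩), fun h => by cases h⟩
      · intro a ha b hb
        exact (hR a ha b hb 1 (by norm_num)).1.2 trivial
      · intro a ha b hb h
        exact (hR a ha b hb 1 (by norm_num)).2.1 h
      · intro a ha b hb h
        exact (hR a ha b hb 0 (by norm_num)).2.1 h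
      · intro a ha b hb
        exact (hR a ha b hb 0 (by norm_num)).1.2 trivial
    · refine ⟨OFOn.union ih1.1 ih2.1 ?_ ?_ ?_ (Or.inl ?_), fun h => by cases h⟩
      · intro a ha b hb
        exact (hR a ha b hb 1 (by norm_num)).1.2 rfl
      · intro a ha b hb h
        exact (hR a ha b hb 1 (by norm_num)).2.1 h
      · intro a ha b hb h
        exact (hR a ha b hb 0 (by norm_num)).2.1 h
      · intro a ha b hb h
        have := (hR a ha b hb 0 (by norm_num)).1.1 h
        exact absurd this (by norm_num)

theorem fr : T_FR := by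
  intro A _ _ P R
  rw [ofOn_univ]
  constructor
  · intro h
    exact ⟨_, (gen_of P R _ Set.univ rfl Set.univ_nonempty h).1⟩
  · rintro ⟨c, h⟩
    exact (of_gen P R true Set.univ c h).1

end Pool.Agent.H1.VR
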