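import Pool.Agent.H1.VR.FV

/-!
# Being supported is definable
-/

set_option autoImplicit false

namespace Pool.Agent.H1.VR

open Pool.Agent.H69.Sp Pool.Agent.H69.Mt Pool.Agent.H8.VR Classical

section
variable {κ : Type} {α β : Type}

theorem fs_list [Fintype α] (s : Finset α) (g : α → κ) (w : κ → ℕ) :
    ((s.toList.map g).map w).sum = ∑ a ∈ s, w (g a) := by
  rw [List.map_map]
  exact Finset.sum_map_toList s (w ∘ g)

theorem FV.fs [Fintype α] (P : α → Prop) (g : α → κ) (x : κ) :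
    FV (fun _ _ (w : κ → ℕ) => w x = Pool.Agent.H8.VR.fs P fun a => w (g a)) :=
  (FV.sumL ((Finset.univ.filter P).toList.map g) x).congr fun N E w _ => by
    rw [fs_list]
    exact eq_comm

theorem FV.fs2 [Fintype α] [Fintype β] (P : α → Prop) (g : α → κ) (P' : β → Prop) (g' : β → κ)
    (x : κ) :
    FV (fun _ _ (w : κ → ℕ) => w x = Pool.Agent.H8.VR.fs P (fun a => w (g a)) +
      Pool.Agent.H8.VR.fs P' fun a => w (g' a)) :=
  (FV.sumL ((Finset.univ.filter P).toList.map g ++ (Finset.univ.filter P').toList.map g')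
    x).congr fun N E w _ => by
    rw [List.map_append, List.sum_append, fs_list, fs_list]
    exact eq_comm

/-- `w x = w y + ind p` -/
theorem FV.ind (x y : κ) (p : Prop) :
    FV (fun _ _ (w : κ → ℕ) => w x = w y + Pool.Agent.H8.VR.ind p) := by
  by_cases hp : p
  · refine (FV.sumL1 [y] x).congr fun N E w _ => ?_
    simp only [List.map_cons, List.map_nil, List.sum_cons, List.sum_nil, add_zero]
    unfold Pool.Agent.H8.VR.ind
    rw [if_pos hp]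
    exact eq_comm
  · refine (FV.eq x y).congr fun N E w _ => ?_
    unfold Pool.Agent.H8.VR.ind
    rw [if_neg hp, add_zero]

theorem FV.indc (x : κ) (p : Prop) :
    FV (fun _ _ (w : κ → ℕ) => w x = Pool.Agent.H8.VR.ind p) :=
  FV.num _ x

end

section
variable {N Q L T O C : Type} [Fintype Q] [Fintype L] [Fintype T] [Fintype C] {κ : Type}

theorem fv_zero {α : Type} [Finite α] (b : α → κ) :
    FV (fun _ _ (w : κ → ℕ) => ∀ σ, w (b σ) = 0) :=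
  FV.fi fun σ => FV.num 0 (b σ)

theorem fv_tot0 (a : Ix Q L T C → κ) :
    FV (fun _ _ (w : κ → ℕ) => 0 < tot fun σ => w (a σ)) :=
  (FV.not (FV.sumLn ((Finset.univ : Finset (Ix Q L T C)).toList.map a) 0)).congr
    fun N E w _ => by
    rw [fs_list]
    exact Nat.pos_iff_ne_zero.symm

theorem fv_totx (a : Ix Q L T C → κ) (x : κ) :
    FV (fun _ _ (w : κ → ℕ) => tot (fun σ => w (a σ)) = w x) :=
  (FV.sumL ((Finset.univ : Finset (Ix Q L T C)).toList.map a) x).congr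
    fun N E w _ => by
    rw [fs_list]
    rfl

theorem fv_totle [Finite κ] (a b : Ix Q L T C → κ) (x : κ) :
    FV (fun _ _ (w : κ → ℕ) => tot (fun σ => w (a σ)) + tot (fun σ => w (b σ)) ≤ w x) := by
  have h1 : FV (fun _ _ (w : κ ⊕ Unit → ℕ) =>
      ((((Finset.univ : Finset (Ix Q L T C)).toList.map fun σ => Sum.inl (a σ)) ++
        ((Finset.univ : Finset (Ix Q L T C)).toList.map fun σ => Sum.inl (b σ))).map w).sum =
          w (Sum.inr ()) ∧ w (Sum.inr ()) ≤ w (Sum.inl x)) := (FV.sumL _ _).and (FV.le _ _)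
  refine (FV.ex h1).congr fun N E w hw => ?_
  have h2 : ∀ c : Unit → ℕ, ((((Finset.univ : Finset (Ix Q L T C)).toList.map fun σ =>
      (Sum.inl (a σ) : κ ⊕ Unit)) ++ ((Finset.univ : Finset (Ix Q L T C)).toList.map fun σ =>
        Sum.inl (b σ))).map (Sum.elim w c)).sum =
      tot (fun σ => w (a σ)) + tot (fun σ => w (b σ)) := by
    intro c
    rw [List.map_append, List.sum_append, fs_list, fs_list]
    rfl
  constructor
  · rintro ⟨c, _, h3, h4⟩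
    rw [h2] at h3
    rw [h3]
    exact h4
  · intro h3
    refine ⟨fun _ => tot (fun σ => w (a σ)) + tot (fun σ => w (b σ)), ?_, ?_, h3⟩
    · intro _
      exact lt_of_le_of_lt h3 (hw x)
    · rw [h2]
      rfl

/-- the pairing function is definable -/
theorem fv_pair [Finite κ] (x y z : κ) :
    FV (fun _ _ (w : κ → ℕ) => w z = Nat.pair (w x) (w y)) := by
  have h1 : FV (fun _ _ (w : κ ⊕ Unit → ℕ) =>
      w (Sum.inl y) * w (Sum.inl y) = w (Sum.inr ()) ∧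
        w (Sum.inr ()) + w (Sum.inl x) = w (Sum.inl z)) := (FV.mul _ _ _).and (FV.add _ _ _)
  have h2 : FV (fun _ _ (w : (κ ⊕ Unit) ⊕ Unit → ℕ) =>
      w (Sum.inl (Sum.inl x)) * w (Sum.inl (Sum.inl x)) = w (Sum.inl (Sum.inr ())) ∧
        w (Sum.inl (Sum.inr ())) + w (Sum.inl (Sum.inl x)) = w (Sum.inr ()) ∧
        w (Sum.inr ()) + w (Sum.inl (Sum.inl y)) = w (Sum.inl (Sum.inl z))) :=
    (FV.mul _ _ _).and ((FV.add _ _ _).and (FV.add _ _ _))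
  refine (((FV.lt x y).and (FV.ex h1)).or ((FV.lt x y).not.and (FV.ex (FV.ex h2)))).congr
    fun N E w hw => ?_
  have hz := hw z
  unfold Nat.pair
  by_cases hxy : w x < w y
  · rw [if_pos hxy]
    constructor
    · rintro (⟨_, c, _, h3, h4⟩ | ⟨h3, _⟩)
      · simp only [Sum.elim_inl, Sum.elim_inr] at h3 h4
        omega
      · exact absurd hxy h3
    · intro h3
      left
      refine ⟨hxy, fun _ => w y * w y, fun _ => ?_, rfl, ?_⟩
      · show w y * w y < N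
        omega
      · exact h3.symm
  · rw [if_neg hxy]
    constructor
    · rintro (⟨h3, _⟩ | ⟨_, c, _, c', _, h3, h4, h5⟩)
      · exact absurd h3 hxy
      · simp only [Sum.elim_inl, Sum.elim_inr] at h3 h4 h5
        omega
    · intro h3
      right
      refine ⟨hxy, fun _ => w x * w x, fun _ => ?_, fun _ => w x * w x + w x, fun _ => ?_,
        rfl, rfl, ?_⟩
      · show w x * w x < N
        omega
      · show w x * w x + w x < N
        omega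
      · exact h3.symm

/-- the guard -/
theorem ev_guard [Finite κ] {D : Set ℕ} (hD : IsSpectrum D) (a b : Ix Q L T C → κ) :
    EV (fun N _ (w : κ → ℕ) => ∃ z, z < N ∧
      z = Nat.pair (tot fun σ => w (a σ)) (tot fun σ => w (b σ)) ∧ z ∈ D) := by
  have h1 : EV (fun _ _ (w : κ ⊕ Fin 3 → ℕ) =>
      (tot (fun σ => w (Sum.inl (a σ))) = w (Sum.inr 0) ∧
        tot (fun σ => w (Sum.inl (b σ))) = w (Sum.inr 1) ∧
        w (Sum.inr 2) = Nat.pair (w (Sum.inr 0)) (w (Sum.inr 1))) ∧ w (Sum.inr 2) ∈ D) :=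
    ((fv_totx _ _).and ((fv_totx _ _).and (fv_pair _ _ _))).ev.and (EV.mem hD _)
  refine (EV.ex h1).congr fun N E w hw => ?_
  constructor
  · rintro ⟨c, hc, ⟨h2, h3, h4⟩, h5⟩
    simp only [Sum.elim_inl, Sum.elim_inr] at h2 h3 h4 h5
    refine ⟨c 2, hc 2, ?_, h5⟩
    rw [h4, h2, h3]
  · rintro ⟨z, hz, h2, h3⟩
    refine ⟨![tot fun σ => w (a σ), tot fun σ => w (b σ), z], ?_, ⟨rfl, rfl, h2⟩, h3⟩
    have h4 := Nat.left_le_pair (tot fun σ => w (a σ)) (tot fun σ => w (b σ))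
    have h5 := Nat.right_le_pair (tot fun σ => w (a σ)) (tot fun σ => w (b σ))
    intro i
    fin_cases i
    · exact lt_of_le_of_lt (h4.trans h2.ge) hz
    · exact lt_of_le_of_lt (h5.trans h2.ge) hz
    · exact hz

theorem fv_FE {ι : Type} (iN : N → ℕ) {k : ℕ} (e : Enum ι k) (s : N) (c : ι → κ) :
    FV (fun _ E (w : κ → ℕ) => FE iN e E s fun σ => w (c σ)) :=
  (FV.par (2 * iN s) ((List.range k).map fun j => c (e.en j))).congr fun M E w _ => by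
    rw [List.map_map]
    rfl

theorem fv_JE {ι : Type} (iO : O → ℕ) {k : ℕ} (e : Enum ι k) (o : O) (a b d : ι → κ) :
    FV (fun _ E (w : κ → ℕ) => JE iO e E o (fun σ => w (a σ)) (fun σ => w (b σ))
      fun σ => w (d σ)) :=
  (FV.par (2 * iO o + 1) (((List.range k).map fun j => a (e.en j)) ++
    ((List.range k).map fun j => b (e.en j)) ++
    ((List.range k).map fun j => d (e.en j)))).congr fun M E w _ => by
    rw [List.map_append, List.map_append, List.map_map, List.map_map, List.map_map]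
    rfl

theorem fv_Ptc (S : Sg N Q L T O) (K : Cp C) (s : N) (c : Ix Q L T C → κ) :
    FV (fun _ _ (w : κ → ℕ) => Ptc S K s fun σ => w (c σ)) := by
  unfold Ptc
  exact FV.fe fun q => FV.fe fun l => (FV.const _).and (FV.fi fun σ => FV.indc _ _)

theorem fv_Fn (S : Sg N Q L T O) (o : O) (a d c : Ix Q L T C → κ) :
    FV (fun _ _ (w : κ → ℕ) => Fn S o (fun σ => w (a σ)) (fun σ => w (d σ)) fun σ => w (c σ)) := by
  unfold Fn
  exact FV.fi fun σ => FV.fs2 _ _ _ _ _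

theorem fv_nw (S : Sg N Q L T O) (K : Cp C)
    (hK : ∀ (x : κ) (u : C), FV (fun _ _ (w : κ → ℕ) => K.cp (w x) = u)) (τ ρ : Ix Q L T C)
    (m : Ix Q L T C × T → κ) :
    FV (fun _ _ (w : κ → ℕ) => ρ = nw S K τ fun p => w (m p)) := by
  have h1 : ∀ (p : L × T) (u : C), FV (fun _ _ (w : κ → ℕ) =>
      K.cp (fs (fun σ : Ix Q L T C => σ.2.1 = p.1) fun σ => w (m (σ, S.sw p.2))) = u) := by
    intro p u
    refine (cp_sum K hK (((Finset.univ.filter fun σ : Ix Q L T C => σ.2.1 = p.1)).toList.map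
      fun σ => m (σ, S.sw p.2)) u).congr fun N E w _ => ?_
    rw [fs_list]
    exact Iff.rfl
  refine (((FV.const (ρ.1 = τ.1)).and ((FV.const (ρ.2.1 = τ.2.1)).and
    (FV.fi fun p : L × T => FV.fe fun u : C => (h1 p u).and
      (FV.const (ρ.2.2 p = K.ad (τ.2.2 p) u)))))).congr fun N E w _ => ?_
  unfold nw
  rw [Prod.ext_iff, Prod.ext_iff]
  refine and_congr_right fun _ => and_congr_right fun _ => ?_
  rw [funext_iff]
  refine forall_congr' fun p => ?_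
  constructor
  · rintro ⟨u, h2, h3⟩
    rw [h3, ← h2]
  · intro h2
    exact ⟨_, rfl, h2⟩

theorem fv_Step (S : Sg N Q L T O) (K : Cp C)
    (hK : ∀ (x : κ) (u : C), FV (fun _ _ (w : κ → ℕ) => K.cp (w x) = u)) (o : O)
    (τ : Ix Q L T C) (m : Ix Q L T C × T → κ) (a b d a' b' d' : Ix Q L T C → κ) :
    FV (fun _ _ (w : κ → ℕ) => Step S K o τ (fun p => w (m p)) (fun σ => w (a σ))
      (fun σ => w (b σ)) (fun σ => w (d σ)) (fun σ => w (a' σ)) (fun σ => w (b' σ))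
      fun σ => w (d' σ)) := by
  have h1 : FV (fun _ _ (w : κ → ℕ) => ∀ σ : Ix Q L T C, ∑ θ, w (m (σ, θ)) = w (a σ)) := by
    refine FV.fi fun σ => ?_
    refine (FV.sumL ((Finset.univ : Finset T).toList.map fun θ => m (σ, θ)) (a σ)).congr
      fun N E w _ => ?_
    rw [fs_list]
  have h2 : FV (fun _ _ (w : κ → ℕ) => ∀ p : Ix Q L T C × T, w (m p) ≠ 0 →
      S.al o p.1.1 τ.1 p.2) := FV.fi fun p => (FV.num 0 (m p)).not.imp (FV.const _)
  have h3 : FV (fun _ _ (w : κ → ℕ) => ∀ σ : Ix Q L T C, w (b' σ) + ind (σ = τ) = w (b σ)) :=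
    FV.fi fun σ => (FV.ind (b σ) (b' σ) (σ = τ)).congr fun N E w _ => eq_comm
  have h4 : FV (fun _ _ (w : κ → ℕ) => ∀ σ : Ix Q L T C,
      w (a' σ) = fs (fun p => up K τ p = σ) fun p => w (m p)) := FV.fi fun σ => FV.fs _ _ _
  have h5 : FV (fun _ _ (w : κ → ℕ) => ∃ ρ : Ix Q L T C, (ρ = nw S K τ fun p => w (m p)) ∧
      ∀ σ : Ix Q L T C, w (d' σ) = w (d σ) + ind (σ = ρ)) :=
    FV.fe fun ρ => (fv_nw S K hK τ ρ m).and (FV.fi fun σ => FV.ind _ _ _)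
  refine (h1.and (h2.and (h3.and (h4.and h5)))).congr fun N E w _ => ?_
  unfold Step
  refine and_congr_right fun _ => and_congr_right fun _ => and_congr_right fun _ =>
    and_congr_right fun _ => ?_
  constructor
  · rintro ⟨ρ, rfl, h6⟩
    exact h6
  · intro h6
    exact ⟨_, rfl, h6⟩

end

theorem pf_FS : T_FS := by
  intro N Q L T O C _ _ _ _ _ _ S K iN iO k e hK hD
  have hKv : ∀ (κ : Type) (x : κ) (u : C), FV (fun _ _ (w : κ → ℕ) => K.cp (w x) = u) :=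
    fun κ x u im => hK (im x) u
  obtain ⟨ι, hι⟩ : ∃ ι, ι = Ix Q L T C := ⟨_, rfl⟩
  have hA : EV (fun M E (_ : Unit → ℕ) => ∀ s, ∀ c : Ix Q L T C → ℕ, Lt M c → FE iN e E s c →
      Ptc S K s c ∨ ∃ o, S.u o = s ∧ ∃ a : Ix Q L T C → ℕ, Lt M a ∧ ∃ b : Ix Q L T C → ℕ,
        Lt M b ∧ ∃ d : Ix Q L T C → ℕ, Lt M d ∧
        (∀ σ, b σ = 0) ∧ JE iO e E o a b d ∧ Fn S o a d c) := by
    refine (FV.fi fun s => FV.all (P := fun M E (w : Unit ⊕ Ix Q L T C → ℕ) =>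
      FE iN e E s (fun σ => w (Sum.inr σ)) → Ptc S K s (fun σ => w (Sum.inr σ)) ∨ ∃ o, S.u o = s ∧
        ∃ a : Ix Q L T C → ℕ, Lt M a ∧ ∃ b : Ix Q L T C → ℕ,
        Lt M b ∧ ∃ d : Ix Q L T C → ℕ, Lt M d ∧
        (∀ σ, b σ = 0) ∧ JE iO e E o a b d ∧ Fn S o a d (fun σ => w (Sum.inr σ))) ?_).ev
    refine (fv_FE iN e s _).imp ((fv_Ptc S K s _).or (FV.fe fun o => (FV.const _).and ?_))
    refine FV.ex (P := fun M E (w : (Unit ⊕ Ix Q L T C) ⊕ Ix Q L T C → ℕ) =>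
      ∃ b : Ix Q L T C → ℕ, Lt M b ∧ ∃ d : Ix Q L T C → ℕ, Lt M d ∧
        (∀ σ, b σ = 0) ∧ JE iO e E o (fun σ => w (Sum.inr σ)) b d ∧
          Fn S o (fun σ => w (Sum.inr σ)) d (fun σ => w (Sum.inl (Sum.inr σ)))) ?_
    refine FV.ex (P := fun M E (w : ((Unit ⊕ Ix Q L T C) ⊕ Ix Q L T C) ⊕ Ix Q L T C → ℕ) =>
      ∃ d : Ix Q L T C → ℕ, Lt M d ∧
        (∀ σ, w (Sum.inr σ) = 0) ∧ JE iO e E o (fun σ => w (Sum.inl (Sum.inr σ)))
          (fun σ => w (Sum.inr σ)) d ∧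
          Fn S o (fun σ => w (Sum.inl (Sum.inr σ))) d
            (fun σ => w (Sum.inl (Sum.inl (Sum.inr σ))))) ?_
    refine FV.ex (P := fun M E
      (w : (((Unit ⊕ Ix Q L T C) ⊕ Ix Q L T C) ⊕ Ix Q L T C) ⊕ Ix Q L T C → ℕ) =>
        (∀ σ, w (Sum.inl (Sum.inr σ)) = 0) ∧
        JE iO e E o (fun σ => w (Sum.inl (Sum.inl (Sum.inr σ))))
          (fun σ => w (Sum.inl (Sum.inr σ))) (fun σ => w (Sum.inr σ)) ∧
          Fn S o (fun σ => w (Sum.inl (Sum.inl (Sum.inr σ)))) (fun σ => w (Sum.inr σ))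
            (fun σ => w (Sum.inl (Sum.inl (Sum.inl (Sum.inr σ)))))) ?_
    exact (fv_zero _).and ((fv_JE iO e o _ _ _).and (fv_Fn S o _ _ _))
  have hB : EV (fun M E (w : Unit → ℕ) => ∀ o, ∀ a : Ix Q L T C → ℕ, Lt M a →
      ∀ b : Ix Q L T C → ℕ, Lt M b → ∀ d : Ix Q L T C → ℕ, Lt M d → JE iO e E o a b d →
      ((∀ σ, d σ = 0) ∧ FE iN e E (S.s o) a ∧ FE iN e E (S.t o) b ∧ 0 < tot a ∧ 0 < tot b ∧
        tot a + tot b ≤ w () ∧ ∃ z, z < M ∧ z = Nat.pair (tot a) (tot b) ∧ z ∈ S.D o) ∨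
      ∃ τ, ∃ m : Ix Q L T C × T → ℕ, Lt M m ∧ ∃ a₀ : Ix Q L T C → ℕ, Lt M a₀ ∧
        ∃ b₀ : Ix Q L T C → ℕ, Lt M b₀ ∧ ∃ d₀ : Ix Q L T C → ℕ, Lt M d₀ ∧ JE iO e E o a₀ b₀ d₀ ∧
        Step S K o τ m a₀ b₀ d₀ a b d) := by
    refine EV.fi fun o => ?_
    refine EV.all (P := fun M E (w : Unit ⊕ Ix Q L T C → ℕ) =>
      ∀ b : Ix Q L T C → ℕ, Lt M b → ∀ d : Ix Q L T C → ℕ, Lt M d →
        JE iO e E o (fun σ => w (Sum.inr σ)) b d →
      ((∀ σ, d σ = 0) ∧ FE iN e E (S.s o) (fun σ => w (Sum.inr σ)) ∧ FE iN e E (S.t o) b ∧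
        (0 < tot fun σ => w (Sum.inr σ)) ∧ 0 < tot b ∧
        tot (fun σ => w (Sum.inr σ)) + tot b ≤ w (Sum.inl ()) ∧
        ∃ z, z < M ∧ z = Nat.pair (tot fun σ => w (Sum.inr σ)) (tot b) ∧ z ∈ S.D o) ∨
      ∃ τ, ∃ m : Ix Q L T C × T → ℕ, Lt M m ∧ ∃ a₀ : Ix Q L T C → ℕ, Lt M a₀ ∧
        ∃ b₀ : Ix Q L T C → ℕ, Lt M b₀ ∧ ∃ d₀ : Ix Q L T C → ℕ, Lt M d₀ ∧ JE iO e E o a₀ b₀ d₀ ∧
        Step S K o τ m a₀ b₀ d₀ (fun σ => w (Sum.inr σ)) b d) ?_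
    refine EV.all (P := fun M E (w : (Unit ⊕ Ix Q L T C) ⊕ Ix Q L T C → ℕ) =>
      ∀ d : Ix Q L T C → ℕ, Lt M d →
        JE iO e E o (fun σ => w (Sum.inl (Sum.inr σ))) (fun σ => w (Sum.inr σ)) d →
      ((∀ σ, d σ = 0) ∧ FE iN e E (S.s o) (fun σ => w (Sum.inl (Sum.inr σ))) ∧
        FE iN e E (S.t o) (fun σ => w (Sum.inr σ)) ∧
        (0 < tot fun σ => w (Sum.inl (Sum.inr σ))) ∧ (0 < tot fun σ => w (Sum.inr σ)) ∧
        tot (fun σ => w (Sum.inl (Sum.inr σ))) + tot (fun σ => w (Sum.inr σ)) ≤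
          w (Sum.inl (Sum.inl ())) ∧
        ∃ z, z < M ∧ z = Nat.pair (tot fun σ => w (Sum.inl (Sum.inr σ)))
          (tot fun σ => w (Sum.inr σ)) ∧ z ∈ S.D o) ∨
      ∃ τ, ∃ m : Ix Q L T C × T → ℕ, Lt M m ∧ ∃ a₀ : Ix Q L T C → ℕ, Lt M a₀ ∧
        ∃ b₀ : Ix Q L T C → ℕ, Lt M b₀ ∧ ∃ d₀ : Ix Q L T C → ℕ, Lt M d₀ ∧ JE iO e E o a₀ b₀ d₀ ∧
        Step S K o τ m a₀ b₀ d₀ (fun σ => w (Sum.inl (Sum.inr σ))) (fun σ => w (Sum.inr σ)) d) ?_
    refine EV.all (P := fun M E (w : ((Unit ⊕ Ix Q L T C) ⊕ Ix Q L T C) ⊕ Ix Q L T C → ℕ) =>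
        JE iO e E o (fun σ => w (Sum.inl (Sum.inl (Sum.inr σ))))
          (fun σ => w (Sum.inl (Sum.inr σ))) (fun σ => w (Sum.inr σ)) →
      ((∀ σ, w (Sum.inr σ) = 0) ∧ FE iN e E (S.s o) (fun σ => w (Sum.inl (Sum.inl (Sum.inr σ)))) ∧
        FE iN e E (S.t o) (fun σ => w (Sum.inl (Sum.inr σ))) ∧
        (0 < tot fun σ => w (Sum.inl (Sum.inl (Sum.inr σ)))) ∧
        (0 < tot fun σ => w (Sum.inl (Sum.inr σ))) ∧
        tot (fun σ => w (Sum.inl (Sum.inl (Sum.inr σ)))) +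
          tot (fun σ => w (Sum.inl (Sum.inr σ))) ≤ w (Sum.inl (Sum.inl (Sum.inl ()))) ∧
        ∃ z, z < M ∧ z = Nat.pair (tot fun σ => w (Sum.inl (Sum.inl (Sum.inr σ))))
          (tot fun σ => w (Sum.inl (Sum.inr σ))) ∧ z ∈ S.D o) ∨
      ∃ τ, ∃ m : Ix Q L T C × T → ℕ, Lt M m ∧ ∃ a₀ : Ix Q L T C → ℕ, Lt M a₀ ∧
        ∃ b₀ : Ix Q L T C → ℕ, Lt M b₀ ∧ ∃ d₀ : Ix Q L T C → ℕ, Lt M d₀ ∧ JE iO e E o a₀ b₀ d₀ ∧
        Step S K o τ m a₀ b₀ d₀ (fun σ => w (Sum.inl (Sum.inl (Sum.inr σ))))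
          (fun σ => w (Sum.inl (Sum.inr σ))) (fun σ => w (Sum.inr σ))) ?_
    refine (fv_JE iO e o _ _ _).impE (EV.or ?_ (FV.ev ?_))
    · exact (fv_zero _).ev.and ((fv_FE iN e _ _).ev.and ((fv_FE iN e _ _).ev.and
        ((fv_tot0 _).ev.and ((fv_tot0 _).ev.and ((fv_totle _ _ _).ev.and
          (ev_guard (hD o) _ _))))))
    · refine FV.fe fun τ => ?_
      refine FV.ex (P := fun M E (w : (((Unit ⊕ Ix Q L T C) ⊕ Ix Q L T C) ⊕ Ix Q L T C) ⊕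
        (Ix Q L T C × T) → ℕ) =>
        ∃ a₀ : Ix Q L T C → ℕ, Lt M a₀ ∧
        ∃ b₀ : Ix Q L T C → ℕ, Lt M b₀ ∧ ∃ d₀ : Ix Q L T C → ℕ, Lt M d₀ ∧ JE iO e E o a₀ b₀ d₀ ∧
        Step S K o τ (fun p => w (Sum.inr p)) a₀ b₀ d₀
          (fun σ => w (Sum.inl (Sum.inl (Sum.inl (Sum.inr σ)))))
          (fun σ => w (Sum.inl (Sum.inl (Sum.inr σ)))) (fun σ => w (Sum.inl (Sum.inr σ)))) ?_
      refine FV.ex (P := fun M E (w : ((((Unit ⊕ Ix Q L T C) ⊕ Ix Q L T C) ⊕ Ix Q L T C) ⊕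
        (Ix Q L T C × T)) ⊕ Ix Q L T C → ℕ) =>
        ∃ b₀ : Ix Q L T C → ℕ, Lt M b₀ ∧ ∃ d₀ : Ix Q L T C → ℕ, Lt M d₀ ∧
        JE iO e E o (fun σ => w (Sum.inr σ)) b₀ d₀ ∧
        Step S K o τ (fun p => w (Sum.inl (Sum.inr p))) (fun σ => w (Sum.inr σ)) b₀ d₀
          (fun σ => w (Sum.inl (Sum.inl (Sum.inl (Sum.inl (Sum.inr σ))))))
          (fun σ => w (Sum.inl (Sum.inl (Sum.inl (Sum.inr σ)))))
          (fun σ => w (Sum.inl (Sum.inl (Sum.inr σ))))) ?_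
      refine FV.ex (P := fun M E (w : (((((Unit ⊕ Ix Q L T C) ⊕ Ix Q L T C) ⊕ Ix Q L T C) ⊕
        (Ix Q L T C × T)) ⊕ Ix Q L T C) ⊕ Ix Q L T C → ℕ) =>
        ∃ d₀ : Ix Q L T C → ℕ, Lt M d₀ ∧
        JE iO e E o (fun σ => w (Sum.inl (Sum.inr σ))) (fun σ => w (Sum.inr σ)) d₀ ∧
        Step S K o τ (fun p => w (Sum.inl (Sum.inl (Sum.inr p))))
          (fun σ => w (Sum.inl (Sum.inr σ))) (fun σ => w (Sum.inr σ)) d₀
          (fun σ => w (Sum.inl (Sum.inl (Sum.inl (Sum.inl (Sum.inl (Sum.inr σ)))))))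
          (fun σ => w (Sum.inl (Sum.inl (Sum.inl (Sum.inl (Sum.inr σ))))))
          (fun σ => w (Sum.inl (Sum.inl (Sum.inl (Sum.inr σ)))))) ?_
      refine FV.ex (P := fun M E (w : ((((((Unit ⊕ Ix Q L T C) ⊕ Ix Q L T C) ⊕ Ix Q L T C) ⊕
        (Ix Q L T C × T)) ⊕ Ix Q L T C) ⊕ Ix Q L T C) ⊕ Ix Q L T C → ℕ) =>
        JE iO e E o (fun σ => w (Sum.inl (Sum.inl (Sum.inr σ))))
          (fun σ => w (Sum.inl (Sum.inr σ))) (fun σ => w (Sum.inr σ)) ∧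
        Step S K o τ (fun p => w (Sum.inl (Sum.inl (Sum.inl (Sum.inr p)))))
          (fun σ => w (Sum.inl (Sum.inl (Sum.inr σ)))) (fun σ => w (Sum.inl (Sum.inr σ)))
          (fun σ => w (Sum.inr σ))
          (fun σ => w (Sum.inl (Sum.inl (Sum.inl (Sum.inl (Sum.inl (Sum.inl (Sum.inr σ))))))))
          (fun σ => w (Sum.inl (Sum.inl (Sum.inl (Sum.inl (Sum.inl (Sum.inr σ)))))))
          (fun σ => w (Sum.inl (Sum.inl (Sum.inl (Sum.inl (Sum.inr σ))))))) ?_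
      exact (fv_JE iO e o _ _ _).and (fv_Step S K (hKv _) o τ _ _ _ _ _ _ _)
  refine ((hA.and hB) fun _ => 0).congr fun M E v _ => ?_
  unfold Supp
  refine and_congr ?_ ?_
  · constructor
    · intro h s c hc hF
      rcases h s c hc hF with h1 | ⟨o, h1, a, ha, b, hb, d, hd, h2, h3, h4⟩
      · exact Or.inl h1
      · exact Or.inr ⟨o, h1, a, b, d, ha, hb, hd, h2, h3, h4⟩
    · intro h s c hc hF
      rcases h s c hc hF with h1 | ⟨o, h1, a, b, d, ha, hb, hd, h2, h3, h4⟩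
      · exact Or.inl h1
      · exact Or.inr ⟨o, h1, a, ha, b, hb, d, hd, h2, h3, h4⟩
  · constructor
    · intro h o a b d ha hb hd hJ
      rcases h o a ha b hb d hd hJ with h1 | ⟨τ, m, hm, a₀, ha₀, b₀, hb₀, d₀, hd₀, h2, h3⟩
      · exact Or.inl h1
      · exact Or.inr ⟨τ, m, a₀, b₀, d₀, hm, ha₀, hb₀, hd₀, h2, h3⟩
    · intro h o a ha b hb d hd hJ
      rcases h o a b d ha hb hd hJ with h1 | ⟨τ, m, a₀, b₀, d₀, hm, ha₀, hb₀, hd₀, h2, h3⟩
      · exact Or.inl h1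
      · exact Or.inr ⟨τ, m, hm, a₀, ha₀, b₀, hb₀, d₀, hd₀, h2, h3⟩

end Pool.Agent.H1.VR
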