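import Pool.Agent.H8.VR.Targets
import Pool.Agent.H58.TW.FA
import Pool.Agent.H58.TW.FS
import Pool.Agent.H34.VR.FA

/-!
# Definability with finite types of variables
-/

set_option autoImplicit false

namespace Pool.Agent.H1.VR

open Pool.Agent.H69.Sp Pool.Agent.H69.Mt Pool.Agent.H8.VR Pool.Agent.H16.TO Classical

/-- predicates with the variables `κ` -/
abbrev PV (κ : Type) : Type := ℕ → (ℕ → List ℕ → Prop) → (κ → ℕ) → Prop

/-- first-order definable, for all assignments of variables -/
def FV {κ : Type} (P : PV κ) : Prop := ∀ im : κ → ℕ, FD (fun N E v => P N E (fun i => v (im i)))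

/-- existential second-order definable, for all assignments of variables -/
def EV {κ : Type} (P : PV κ) : Prop := ∀ im : κ → ℕ, ED (fun N E v => P N E (fun i => v (im i)))

section
variable {κ : Type} {P Q : PV κ}

theorem FV.ev (h : FV P) : EV P := fun im => (h im).ed

theorem FV.congr (h : FV P) (hPQ : ∀ N E w, (∀ i, w i < N) → (P N E w ↔ Q N E w)) : FV Q :=
  fun im => (h im).congr fun N E v hv => hPQ N E _ fun i => hv (im i)

theorem EV.congr (h : EV P) (hPQ : ∀ N E w, (∀ i, w i < N) → (P N E w ↔ Q N E w)) : EV Q :=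
  fun im => (h im).congr fun N E v hv => hPQ N E _ fun i => hv (im i)

theorem FV.not (h : FV P) : FV (fun N E w => ¬ P N E w) := fun im => (h im).not

theorem FV.and (h : FV P) (h' : FV Q) : FV (fun N E w => P N E w ∧ Q N E w) :=
  fun im => (h im).and (h' im)

theorem FV.or (h : FV P) (h' : FV Q) : FV (fun N E w => P N E w ∨ Q N E w) :=
  fun im => (h im).or (h' im)

theorem FV.imp (h : FV P) (h' : FV Q) : FV (fun N E w => P N E w → Q N E w) :=
  fun im => (h im).imp (h' im)

theorem EV.and (h : EV P) (h' : EV Q) : EV (fun N E w => P N E w ∧ Q N E w) :=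
  fun im => (h im).and (h' im)

theorem EV.or (h : EV P) (h' : EV Q) : EV (fun N E w => P N E w ∨ Q N E w) :=
  fun im => (h im).or (h' im)

theorem FV.impE (h : FV P) (h' : EV Q) : EV (fun N E w => P N E w → Q N E w) :=
  (h.not.ev.or h').congr fun N E w _ => by tauto

theorem FV.const (p : Prop) : FV (fun _ _ (_ : κ → ℕ) => p) := fun _ => FD.const p

theorem FV.num (c : ℕ) (i : κ) : FV (fun _ _ (w : κ → ℕ) => w i = c) := fun im => FD.num c (im i)

theorem FV.eq (i j : κ) : FV (fun _ _ (w : κ → ℕ) => w i = w j) := fun im => FD.eq (im i) (im j)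

theorem FV.le (i j : κ) : FV (fun _ _ (w : κ → ℕ) => w i ≤ w j) := fun im => FD.le (im i) (im j)

theorem FV.lt (i j : κ) : FV (fun _ _ (w : κ → ℕ) => w i < w j) := fun im => FD.lt (im i) (im j)

theorem FV.add (i j l : κ) : FV (fun _ _ (w : κ → ℕ) => w i + w j = w l) :=
  fun im => FD.add (im i) (im j) (im l)

theorem FV.mul (i j l : κ) : FV (fun _ _ (w : κ → ℕ) => w i * w j = w l) :=
  fun im => FD.mul (im i) (im j) (im l)

theorem FV.par (i : ℕ) (xs : List κ) : FV (fun _ E (w : κ → ℕ) => E i (xs.map w)) :=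
  fun im => (FD.par i (xs.map im)).congr fun N E v _ => by
    rw [List.map_map]
    rfl

theorem FV.fi {ι : Type} [Finite ι] {P : ι → PV κ} (h : ∀ i, FV (P i)) :
    FV (fun N E w => ∀ i, P i N E w) :=
  fun im => (Pool.Agent.H58.TW.pf_fi ι _ fun i => h i im).1

theorem FV.fe {ι : Type} [Finite ι] {P : ι → PV κ} (h : ∀ i, FV (P i)) :
    FV (fun N E w => ∃ i, P i N E w) :=
  fun im => (Pool.Agent.H58.TW.pf_fi ι _ fun i => h i im).2

theorem ed_fi_fin : ∀ (n : ℕ) (P : ℕ → Pd), (∀ i, ED (P i)) →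
    ED (fun N E v => ∀ i, i < n → P i N E v) := by
  intro n
  induction n with
  | zero =>
    intro P _
    exact (FD.const True).ed.congr fun N E v _ => by simp
  | succ n ih =>
    intro P h
    refine ((ih P h).and (h n)).congr fun N E v _ => ?_
    constructor
    · rintro ⟨h1, h2⟩ i hi
      rcases Nat.lt_succ_iff_lt_or_eq.1 hi with h3 | rfl
      · exact h1 i h3
      · exact h2
    · intro h1
      exact ⟨fun i hi => h1 i (by omega), h1 n (by omega)⟩

theorem EV.fi {ι : Type} [Finite ι] {P : ι → PV κ} (h : ∀ i, EV (P i)) :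
    EV (fun N E w => ∀ i, P i N E w) := by
  intro im
  obtain ⟨n, ⟨e⟩⟩ := Finite.exists_equiv_fin ι
  refine (ed_fi_fin n (fun c N E v => ∀ hc : c < n, P (e.symm ⟨c, hc⟩) N E (fun i => v (im i)))
    fun c => ?_).congr fun N E v _ => ?_
  · by_cases hc : c < n
    · exact (h (e.symm ⟨c, hc⟩) im).congr fun N E v _ => ⟨fun h1 _ => h1, fun h1 => h1 hc⟩
    · exact (FD.const True).ed.congr fun N E v _ => ⟨fun _ h1 => absurd h1 hc, fun _ => trivial⟩
  · constructor
    · intro h1 i
      have h2 := h1 (e i) (e i).isLt (e i).isLt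
      simpa using h2
    · intro h1 c _ hc
      exact h1 _

/-- a finite disjunction -/
theorem EV.fe {ι : Type} [Finite ι] {P : ι → PV κ} (h : ∀ i, EV (P i)) :
    EV (fun N E w => ∃ i, P i N E w) := by
  intro im
  obtain ⟨n, ⟨e⟩⟩ := Finite.exists_equiv_fin ι
  have key : ∀ (n : ℕ) (R : ℕ → Pd), (∀ i, ED (R i)) →
      ED (fun N E v => ∃ i, i < n ∧ R i N E v) := by
    intro n
    induction n with
    | zero =>
      intro R _
      exact (FD.const False).ed.congr fun N E v _ => by simp
    | succ n ih =>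
      intro R h
      refine ((ih R h).or (h n)).congr fun N E v _ => ?_
      constructor
      · rintro (⟨i, h1, h2⟩ | h2)
        · exact ⟨i, by omega, h2⟩
        · exact ⟨n, by omega, h2⟩
      · rintro ⟨i, h1, h2⟩
        rcases Nat.lt_succ_iff_lt_or_eq.1 h1 with h3 | rfl
        · exact Or.inl ⟨i, h3, h2⟩
        · exact Or.inr h2
  refine (key n (fun c N E v => ∃ hc : c < n, P (e.symm ⟨c, hc⟩) N E (fun i => v (im i)))
    fun c => ?_).congr fun N E v _ => ?_
  · by_cases hc : c < n
    · exact (h (e.symm ⟨c, hc⟩) im).congr fun N E v _ => ⟨fun h1 => ⟨hc, h1⟩, fun h1 => h1.2⟩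
    · exact (FD.const False).ed.congr fun N E v _ => ⟨fun h1 => h1.elim, fun h1 => hc h1.1⟩
  · constructor
    · rintro ⟨c, _, hc, h2⟩
      exact ⟨_, h2⟩
    · rintro ⟨i, h2⟩
      refine ⟨(e i).val, (e i).isLt, (e i).isLt, ?_⟩
      have h3 : e.symm ⟨(e i).val, (e i).isLt⟩ = i := e.symm_apply_apply i
      rw [h3]
      exact h2

/-! ### sums -/

theorem map_map_im (L : List κ) (im : κ → ℕ) (v : ℕ → ℕ) :
    (L.map im).map v = L.map fun i => v (im i) := by
  rw [List.map_map]
  rfl

theorem FV.sumL (L : List κ) (x : κ) : FV (fun _ _ (w : κ → ℕ) => (L.map w).sum = w x) :=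
  fun im => ((Pool.Agent.H58.TW.pf_fs (L.map im)).1 (im x)).congr fun N E v _ => by
    rw [map_map_im]

theorem FV.sumL1 (L : List κ) (x : κ) : FV (fun _ _ (w : κ → ℕ) => (L.map w).sum + 1 = w x) :=
  fun im => ((Pool.Agent.H58.TW.pf_fs (L.map im)).2.1 (im x)).congr fun N E v _ => by
    rw [map_map_im]

theorem FV.sumLn (L : List κ) (l : ℕ) : FV (fun _ _ (w : κ → ℕ) => (L.map w).sum = l) :=
  fun im => (Pool.Agent.H58.TW.fd_sum_num (L.map im) l).congr fun N E v _ => by
    rw [map_map_im]

theorem cp_sum {C : Type} [Finite C] (K : Cp C)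
    (hK : ∀ (x : κ) (u : C), FV (fun _ _ (w : κ → ℕ) => K.cp (w x) = u)) (L : List κ) :
    ∀ u : C, FV (fun _ _ (w : κ → ℕ) => K.cp (L.map w).sum = u) := by
  induction L with
  | nil =>
    intro u
    exact (FV.const (K.cp 0 = u)).congr fun N E w _ => by simp
  | cons i L ih =>
    intro u
    refine (FV.fe (ι := C × C) (P := fun p N E w => K.cp (w i) = p.1 ∧ K.cp (L.map w).sum = p.2 ∧
      K.ad p.1 p.2 = u) fun p => (hK i p.1).and ((ih p.2).and (FV.const _))).congr
      fun N E w _ => ?_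
    rw [List.map_cons, List.sum_cons, K.cp_add]
    constructor
    · rintro ⟨p, h1, h2, h3⟩
      rw [h1, h2, h3]
    · intro h
      exact ⟨(_, _), rfl, rfl, h⟩

end

/-! ### quantifiers -/

/-- the block of the new variables -/
theorem fresh {κ α : Type} [Finite κ] [Finite α] (im : κ → ℕ) :
    ∃ (b k : ℕ) (im' : κ ⊕ α → ℕ), (∀ v f i, updN v b k f (im' (Sum.inl i)) = v (im i)) ∧
      (∀ c : α → ℕ, ∀ z : ℕ, ∃ f : ℕ → ℕ, (∀ j, f j = z ∨ ∃ a, f j = c a) ∧
        ∀ v a, updN v b k f (im' (Sum.inr a)) = c a) ∧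
      ∀ f : ℕ → ℕ, ∃ c : α → ℕ, (∀ a, ∃ j, c a = f j) ∧
        ∀ v a, updN v b k f (im' (Sum.inr a)) = c a := by
  obtain ⟨B, hB⟩ := (Set.finite_range im).bddAbove
  have hB' : ∀ i, im i < B + 1 := fun i => Nat.lt_succ_of_le (hB ⟨i, rfl⟩)
  obtain ⟨k, ⟨e⟩⟩ := Finite.exists_equiv_fin α
  refine ⟨B + 1, k, Sum.elim im fun a => B + 1 + (e a).val, ?_, ?_, ?_⟩
  · intro v f i
    have := hB' i
    show updN v (B + 1) k f (im i) = v (im i)
    unfold updN
    rw [if_neg (by omega)]
  · intro c z
    refine ⟨fun j => if hj : j < k then c (e.symm ⟨j, hj⟩) else z, ?_, ?_⟩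
    · intro j
      by_cases hj : j < k
      · right
        exact ⟨_, dif_pos hj⟩
      · left
        exact dif_neg hj
    · intro v a
      show updN v (B + 1) k _ (B + 1 + (e a).val) = c a
      unfold updN
      have := (e a).isLt
      rw [if_pos (by omega), Nat.add_sub_cancel_left]
      refine (dif_pos this).trans ?_
      congr 1
      exact e.symm_apply_apply a
  · intro f
    refine ⟨fun a => f (e a).val, fun a => ⟨_, rfl⟩, ?_⟩
    intro v a
    show updN v (B + 1) k _ (B + 1 + (e a).val) = f (e a).val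
    unfold updN
    have := (e a).isLt
    rw [if_pos (by omega), Nat.add_sub_cancel_left]

theorem ed_faB (P : Pd) (b k : ℕ) (hP : ED P) :
    ED (fun N E v => ∀ f : ℕ → ℕ, (∀ i, f i < N) → P N E (updN v b k f)) := by
  induction k generalizing P with
  | zero =>
    refine hP.congr fun N E v hv => ?_
    constructor
    · intro h f _
      rw [Pool.Agent.H58.TW.updN_zero]
      exact h
    · intro h
      have h1 := h (fun _ => v 0) (fun _ => hv 0)
      rwa [Pool.Agent.H58.TW.updN_zero] at h1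
  | succ k ih =>
    refine (ih _ (ED.all (b + k) hP)).congr fun N E v hv => ?_
    constructor
    · intro h f hf
      rw [Pool.Agent.H58.TW.updN_succ]
      exact h f hf (f k) (hf k)
    · intro h f hf a ha
      have h1 := h (Function.update f k a) (fun i => by
        by_cases hi : i = k
        · subst hi
          rw [Function.update_self]
          exact ha
        · rw [Function.update_of_ne hi]
          exact hf i)
      rw [Pool.Agent.H58.TW.updN_succ, Function.update_self,
        Pool.Agent.H58.TW.updN_congr v b k (Function.update f k a) f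
        (fun i hi => Function.update_of_ne (by omega) _ _)] at h1
      exact h1

theorem ed_exB (P : Pd) (b k : ℕ) (hP : ED P) :
    ED (fun N E v => ∃ f : ℕ → ℕ, (∀ i, f i < N) ∧ P N E (updN v b k f)) := by
  induction k generalizing P with
  | zero =>
    refine hP.congr fun N E v hv => ?_
    constructor
    · intro h
      exact ⟨fun _ => v 0, fun _ => hv 0, by rw [Pool.Agent.H58.TW.updN_zero]; exact h⟩
    · rintro ⟨f, _, h⟩
      rwa [Pool.Agent.H58.TW.updN_zero] at h
  | succ k ih =>
    refine (ih _ (ED.ex (b + k) hP)).congr fun N E v hv => ?_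
    constructor
    · rintro ⟨f, hf, a, ha, h⟩
      refine ⟨Function.update f k a, fun i => ?_, ?_⟩
      · by_cases hi : i = k
        · subst hi
          rw [Function.update_self]
          exact ha
        · rw [Function.update_of_ne hi]
          exact hf i
      · rw [Pool.Agent.H58.TW.updN_succ, Function.update_self,
          Pool.Agent.H58.TW.updN_congr v b k (Function.update f k a) f
          (fun i hi => Function.update_of_ne (by omega) _ _)]
        exact h
    · rintro ⟨f, hf, h⟩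
      rw [Pool.Agent.H58.TW.updN_succ] at h
      exact ⟨f, hf, f k, hf k, h⟩

section
variable {κ α : Type} [Finite κ] [Finite α] {P : PV (κ ⊕ α)}

theorem sum_elim_eq {v : ℕ → ℕ} {im : κ → ℕ} {im' : κ ⊕ α → ℕ} {g : ℕ → ℕ} {c : α → ℕ}
    (h1 : ∀ i, g (im' (Sum.inl i)) = v (im i)) (h2 : ∀ a, g (im' (Sum.inr a)) = c a) :
    (fun i => g (im' i)) = Sum.elim (fun i => v (im i)) c := by
  funext i
  rcases i with i | a
  · exact h1 i
  · exact h2 a

theorem FV.all (h : FV P) : FV (fun N E w => ∀ c : α → ℕ, Lt N c → P N E (Sum.elim w c)) := by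
  intro im
  obtain ⟨b, k, im', h1, h2, h3⟩ := fresh (α := α) im
  refine (Pool.Agent.H58.TW.pf_fa _ b k (h im')).congr fun N E v hv => ?_
  constructor
  · intro h4 c hc
    obtain ⟨f, hf, hf2⟩ := h2 c (v 0)
    have h5 := h4 f fun j => by
      rcases hf j with h | ⟨a, h⟩
      · rw [h]; exact hv 0
      · rw [h]; exact hc a
    rwa [sum_elim_eq (fun i => h1 v f i) (fun a => hf2 v a)] at h5
  · intro h4 f hf
    obtain ⟨c, hc, hc2⟩ := h3 f
    rw [sum_elim_eq (fun i => h1 v f i) (fun a => hc2 v a)]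
    refine h4 c fun a => ?_
    obtain ⟨j, hj⟩ := hc a
    rw [hj]
    exact hf j

theorem FV.ex (h : FV P) : FV (fun N E w => ∃ c : α → ℕ, Lt N c ∧ P N E (Sum.elim w c)) :=
  (FV.not (FV.all h.not)).congr fun N E w _ => by
    constructor
    · intro h1
      by_contra h2
      exact h1 fun c hc hP => h2 ⟨c, hc, hP⟩
    · rintro ⟨c, hc, hP⟩ h1
      exact h1 c hc hP

theorem EV.all (h : EV P) : EV (fun N E w => ∀ c : α → ℕ, Lt N c → P N E (Sum.elim w c)) := by
  intro im
  obtain ⟨b, k, im', h1, h2, h3⟩ := fresh (α := α) im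
  refine (ed_faB _ b k (h im')).congr fun N E v hv => ?_
  constructor
  · intro h4 c hc
    obtain ⟨f, hf, hf2⟩ := h2 c (v 0)
    have h5 := h4 f fun j => by
      rcases hf j with h | ⟨a, h⟩
      · rw [h]; exact hv 0
      · rw [h]; exact hc a
    rwa [sum_elim_eq (fun i => h1 v f i) (fun a => hf2 v a)] at h5
  · intro h4 f hf
    obtain ⟨c, hc, hc2⟩ := h3 f
    rw [sum_elim_eq (fun i => h1 v f i) (fun a => hc2 v a)]
    refine h4 c fun a => ?_
    obtain ⟨j, hj⟩ := hc a
    rw [hj]
    exact hf j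

theorem EV.ex (h : EV P) : EV (fun N E w => ∃ c : α → ℕ, Lt N c ∧ P N E (Sum.elim w c)) := by
  intro im
  obtain ⟨b, k, im', h1, h2, h3⟩ := fresh (α := α) im
  refine (ed_exB _ b k (h im')).congr fun N E v hv => ?_
  constructor
  · rintro ⟨f, hf, hP⟩
    obtain ⟨c, hc, hc2⟩ := h3 f
    rw [sum_elim_eq (fun i => h1 v f i) (fun a => hc2 v a)] at hP
    refine ⟨c, fun a => ?_, hP⟩
    obtain ⟨j, hj⟩ := hc a
    rw [hj]
    exact hf j
  · rintro ⟨c, hc, hP⟩
    obtain ⟨f, hf, hf2⟩ := h2 c (v 0)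
    refine ⟨f, fun j => ?_, ?_⟩
    · rcases hf j with h | ⟨a, h⟩
      · rw [h]; exact hv 0
      · rw [h]; exact hc a
    · rwa [sum_elim_eq (fun i => h1 v f i) (fun a => hf2 v a)]

end

/-- membership in a spectrum -/
theorem EV.mem {κ : Type} {X : Set ℕ} (h : IsSpectrum X) (x : κ) :
    EV (fun _ _ (w : κ → ℕ) => w x ∈ X) := fun im => mem_ed h (im x)

end Pool.Agent.H1.VR
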